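import Mathlib

set_option autoImplicit false

/-! # Several quadruples of Lenstra's problem: definitions -/

namespace Pool.Agent.K6.H61.LE

open NumberField Finset

/-- the Frobenius conjugacy class of `q` in `G(F/ℚ)` meets `C` -/
def FrobIn (F : IntermediateField ℚ (AlgebraicClosure ℚ)) [NumberField F]
    (C : Set (F ≃ₐ[ℚ] F)) (q : ℕ) : Prop :=
  ∃ σ ∈ C, ∃ Q : Ideal (𝓞 F), Q.IsPrime ∧
    Q.comap (algebraMap ℤ (𝓞 F)) = Ideal.span {(q : ℤ)} ∧
    ∀ a b : 𝓞 F, (b : F) = σ (a : F) → b - a ^ q ∈ Q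

/-- `q` is in the set `𝒮(F, C, W, k)` of Q1: the Frobenius condition, `W` consists of `q`-units, and the
index of `W` modulo `q` divides `k` -/
def InS (F : IntermediateField ℚ (AlgebraicClosure ℚ)) [NumberField F]
    (C : Set (F ≃ₐ[ℚ] F)) (W : Subgroup ℚˣ) (k q : ℕ) : Prop :=
  FrobIn F C q ∧ (∀ w ∈ W, padicValRat q (w : ℚ) = 0) ∧
    (Subgroup.closure {u : (ZMod q)ˣ | ∃ w ∈ W,
      (((w : ℚ).num : ℤ) : ZMod q) = (u : ZMod q) * (((w : ℚ).den : ℕ) : ZMod q)}).index ∣ k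

/-- the reduction of `w` modulo `q` is a `d`-th power -/
def IsPow (q d : ℕ) (w : ℚˣ) : Prop :=
  ∃ y : ZMod q, (((w : ℚ).num : ℤ) : ZMod q) = y ^ d * (((w : ℚ).den : ℕ) : ZMod q)

/-- The data of Lenstra's problem for a family of groups: `F / ℚ` finite Galois, `C` stable under
conjugation, `W₀` finitely generated, `k ≥ 1`, `D` a nonzero rational and `r ≥ 1` such that
`l ^ (ν_l(k) + 1)` divides `r` for the primes `l ∣ r` (every `r` if `k = 1`, and `r = 1` for every
`k`). The groups are `⟨W₀, D n ^ r⟩`, `n = 1, 2, …` -/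
structure Family where
  /-- the field -/
  F : IntermediateField ℚ (AlgebraicClosure ℚ)
  [nf : NumberField F]
  [gal : IsGalois ℚ F]
  /-- the union of conjugacy classes -/
  C : Set (F ≃ₐ[ℚ] F)
  /-- the fixed part of the groups -/
  W₀ : Subgroup ℚˣ
  /-- the bound for the index -/
  k : ℕ
  /-- the coefficient -/
  D : ℚˣ
  /-- the exponent -/
  r : ℕ
  conj : ∀ σ ∈ C, ∀ τ : F ≃ₐ[ℚ] F, τ * σ * τ⁻¹ ∈ C
  fg : W₀.FG
  k_pos : 0 < k
  r_pos : 0 < r
  dvd : ∀ l : ℕ, l.Prime → l ∣ r → l ^ (k.factorization l + 1) ∣ r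

attribute [instance] Family.nf Family.gal

namespace Family

variable (A : Family)

/-- the group `⟨W₀, D n ^ r⟩` -/
def W (n : ℕ) : Subgroup ℚˣ :=
  A.W₀ ⊔ Subgroup.closure {w : ℚˣ | (w : ℚ) = (A.D : ℚ) * (n : ℚ) ^ A.r}

/-- `q` is in `𝒮(F, C, ⟨W₀, D n ^ r⟩, k)` -/
def Sat (n q : ℕ) : Prop := InS A.F A.C (A.W n) A.k q

open Classical in
/-- the local factor at the prime `l`; here `Q = l ^ (ν_l(k) + 1)`. It is `1` unless `Q ∣ q - 1` and all
elements of `W₀` are `Q`-th powers modulo `q`. In this case it is `1 - 1 / Q` if `l` does not divide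
`r`; and if `l ∣ r`, it is `0` if `D` is a `Q`-th power modulo `q`, and `1` otherwise. -/
noncomputable def factor (q l : ℕ) : ℝ :=
  if l ^ (A.k.factorization l + 1) ∣ q - 1 ∧
      ∀ w ∈ A.W₀, IsPow q (l ^ (A.k.factorization l + 1)) w then
    if l ∣ A.r then (if IsPow q (l ^ (A.k.factorization l + 1)) A.D then 0 else 1)
    else 1 - 1 / (l ^ (A.k.factorization l + 1) : ℕ)
  else 1

open Classical in
/-- the local density at `q`: the product of the local factors over the primes `l ∣ q - 1` if the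
Frobenius class of `q` meets `C` and `W₀` and `D` are `q`-units, `0` otherwise -/
noncomputable def loc (q : ℕ) : ℝ :=
  if FrobIn A.F A.C q ∧ (∀ w ∈ A.W₀, padicValRat q (w : ℚ) = 0) ∧ padicValRat q (A.D : ℚ) = 0 then
    ∏ l ∈ (q - 1).primeFactors, A.factor q l else 0

end Family

open Classical in
/-- the number of the primes `q ≤ x` of `S` which are in `𝒮(F_i, C_i, ⟨W₀_i, D_i n_i ^ r_i⟩, k_i)` for all
`i` -/
noncomputable def cnt {s : ℕ} (A : Fin s → Family) (S : Set ℕ) (n : Fin s → ℕ) (x : ℕ) : ℕ :=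
  #((Icc 1 x).filter (fun q => q.Prime ∧ q ∈ S ∧ ∀ i, (A i).Sat (n i) q))

open Classical in
/-- the sum of the products of the local densities over the primes `q ≤ x` of `S` -/
noncomputable def locSum {s : ℕ} (A : Fin s → Family) (S : Set ℕ) (x : ℕ) : ℝ :=
  ∑ q ∈ (Icc 1 x).filter (fun q => q.Prime ∧ q ∈ S), ∏ i, (A i).loc q

open Classical in
/-- the `s`-tuples of integers between `1` and `N` for which the number differs from the sum of the
local densities by more than `ε π(x)` for some `x` with `(log N) ^ C₀ ≤ x ≤ exp ((log N) ^ B)` -/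
noncomputable def exceptions {s : ℕ} (A : Fin s → Family) (S : Set ℕ) (ε C₀ B : ℝ) (N : ℕ) :
    Finset (Fin s → ℕ) :=
  (Fintype.piFinset (fun _ : Fin s => Icc 1 N)).filter (fun n => ∃ x : ℕ,
    (Real.log N) ^ C₀ ≤ x ∧ (x : ℝ) ≤ Real.exp ((Real.log N) ^ B) ∧
      ε * (Nat.primeCounting x : ℝ) < |(cnt A S n x : ℝ) - locSum A S x|)

end Pool.Agent.K6.H61.LE
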