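import Pool.Agent.K6.H61.SI.Tuple
import Pool.Agent.W171.LG.CoreR
import Pool.Agent.TH893.JO.Len

set_option autoImplicit false

/-! # Lenstra's conditions for several groups at the same time, in arbitrary sets of primes -/

namespace Pool.Agent.K6.H61.LE

open Finset Filter Topology NumberField
open Pool.Agent.H771R4.SE (Dat cntE)
open Pool.Agent.H386R2.Artin (PP Good hL card_PP pi_lower ev1 tlog)
open Pool.Agent.K6.H61.SI
open Pool.Agent.W401.Cheb
open Pool.Agent.W171.LG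
open Pool.Agent.H981R3.LN (ql)
open Pool.Agent.TH890.AS (dens dens_eq)

lemma prod_diff (r : ℕ) (a b : Fin r → ℝ) (ha : ∀ i, 0 ≤ a i ∧ a i ≤ 2)
    (hb : ∀ i, 0 ≤ b i ∧ b i ≤ 2) :
    |∏ i, a i - ∏ i, b i| ≤ 2 ^ r * ∑ i, |a i - b i| := by
  induction r with
  | zero => simp
  | succ r ih =>
    rw [Fin.prod_univ_succ, Fin.prod_univ_succ, Fin.sum_univ_succ]
    have h1 := ih (fun i => a i.succ) (fun i => b i.succ) (fun i => ha _) (fun i => hb _)
    have h2 : |∏ i : Fin r, a i.succ| ≤ 2 ^ r := by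
      rw [abs_of_nonneg (prod_nonneg fun i _ => (ha _).1)]
      calc ∏ i : Fin r, a i.succ ≤ ∏ _i : Fin r, (2 : ℝ) :=
            prod_le_prod (fun i _ => (ha _).1) fun i _ => (ha _).2
        _ = 2 ^ r := by simp
    have h3 : a 0 * ∏ i : Fin r, a i.succ - b 0 * ∏ i : Fin r, b i.succ =
        (a 0 - b 0) * ∏ i : Fin r, a i.succ +
          b 0 * (∏ i : Fin r, a i.succ - ∏ i : Fin r, b i.succ) := by ring
    rw [h3]
    refine (abs_add_le _ _).trans ?_
    rw [abs_mul, abs_mul, abs_of_nonneg (hb 0).1]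
    have h4 : (0 : ℝ) ≤ ∑ i : Fin r, |a i.succ - b i.succ| := sum_nonneg fun _ _ => abs_nonneg _
    have h5 : (0 : ℝ) ≤ |a 0 - b 0| := abs_nonneg _
    have h6 : (1 : ℝ) ≤ 2 ^ r := one_le_pow₀ (by norm_num)
    calc |a 0 - b 0| * |∏ i : Fin r, a i.succ| +
          b 0 * |∏ i : Fin r, a i.succ - ∏ i : Fin r, b i.succ|
        ≤ |a 0 - b 0| * 2 ^ r + 2 * (2 ^ r * ∑ i : Fin r, |a i.succ - b i.succ|) := by
          apply add_le_add
          · exact mul_le_mul_of_nonneg_left h2 h5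
          · exact mul_le_mul (hb 0).2 h1 (abs_nonneg _) (by norm_num)
      _ ≤ 2 ^ (r + 1) * (|a 0 - b 0| + ∑ i : Fin r, |a i.succ - b i.succ|) := by
          rw [pow_succ]
          nlinarith

/-- the sum of the local densities -/
noncomputable def devM {r : ℕ} (d : Fin r → Dat) (w : ℕ → ℝ) (m : Fin r → ℕ) (x : ℕ) : ℝ :=
  ∑ p ∈ PP x, w p * (∏ i, iP ((d i).Q p (m i : ZMod p)) - ∏ i, mu (d i) p)

lemma mu_close {r : ℕ} (d : Fin r → Dat) (ε : ℝ) (hε : 0 < ε) : ∃ X₀ : ℕ, ∀ x : ℕ, X₀ ≤ x →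
    ∑ p ∈ PP x, |∏ i, (d i).G p - ∏ i, mu (d i) p| ≤ ε * Nat.primeCounting x := by
  classical
  set P : ℕ := ∑ i, (d i).p0 with hP
  have hPi : ∀ i, (d i).p0 ≤ P := fun i => single_le_sum (f := fun i => (d i).p0)
    (fun _ _ => Nat.zero_le _) (mem_univ i)
  set K : ℝ := 2 ^ r * r with hK
  have hK0 : 0 ≤ K := by positivity
  have hev := ev_recip (ε / (2 * (K + 1))) (by positivity)
  have h1 : Tendsto (fun x : ℕ => ε / 2 * (Nat.primeCounting x : ℝ)) atTop atTop :=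
    (tendsto_natCast_atTop_atTop.comp Nat.tendsto_primeCounting).const_mul_atTop (by positivity)
  obtain ⟨X₀, hX₀⟩ := eventually_atTop.1 (hev.and (h1.eventually_ge_atTop (2 * K * P)))
  refine ⟨X₀, fun x hx => ?_⟩
  obtain ⟨h2, h3⟩ := hX₀ x hx
  have hterm : ∀ p ∈ PP x, |∏ i, (d i).G p - ∏ i, mu (d i) p| ≤
      (if p < P then 2 * K else 0) + K * (1 / ((p : ℝ) - 1)) := by
    intro p hp
    have hpp : p.Prime := (mem_filter.1 hp).2
    have : Fact p.Prime := ⟨hpp⟩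
    have hp1 : (0 : ℝ) < (p : ℝ) - 1 := by
      have : (2 : ℝ) ≤ p := by exact_mod_cast hpp.two_le
      linarith
    have hG : ∀ i, 0 ≤ (d i).G p ∧ (d i).G p ≤ 2 := fun i => ⟨(d i).G0 p, (d i).G1 p⟩
    have hM : ∀ i, 0 ≤ mu (d i) p ∧ mu (d i) p ≤ 2 := fun i =>
      ⟨(mu_bd (d i) p).1, (mu_bd (d i) p).2.trans (by norm_num)⟩
    refine (prod_diff r _ _ hG hM).trans ?_
    have h4 : ∀ i, |(d i).G p - mu (d i) p| ≤ (if p < P then 2 else 0) + 1 / ((p : ℝ) - 1) := by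
      intro i
      split_ifs with h
      · have h5 : (0 : ℝ) ≤ 1 / ((p : ℝ) - 1) := by positivity
        rw [abs_le]
        constructor <;> linarith [(hG i).1, (hG i).2, (hM i).1, (hM i).2]
      · push Not at h
        rw [zero_add, abs_sub_comm]
        exact mu_G (d i) p hpp ((hPi i).trans h)
    calc (2 : ℝ) ^ r * ∑ i, |(d i).G p - mu (d i) p|
        ≤ 2 ^ r * ∑ _i : Fin r, ((if p < P then (2 : ℝ) else 0) + 1 / ((p : ℝ) - 1)) :=
          mul_le_mul_of_nonneg_left (sum_le_sum fun i _ => h4 i) (by positivity)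
      _ = (if p < P then 2 * K else 0) + K * (1 / ((p : ℝ) - 1)) := by
          rw [sum_const, card_univ, Fintype.card_fin, nsmul_eq_mul, hK]
          split_ifs <;> ring
  refine (sum_le_sum hterm).trans ?_
  rw [sum_add_distrib, ← mul_sum]
  have h5 : ∑ p ∈ PP x, (if p < P then 2 * K else 0) ≤ 2 * K * P := by
    rw [← sum_filter, sum_const, nsmul_eq_mul]
    have h6 : (PP x).filter (fun p => p < P) ⊆ range P := fun p hp =>
      mem_range.2 (mem_filter.1 hp).2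
    have h7 := card_le_card h6
    rw [card_range] at h7
    have h8 : ((#((PP x).filter (fun p => p < P)) : ℕ) : ℝ) ≤ P := by exact_mod_cast h7
    nlinarith
  have h9 : K * ∑ p ∈ PP x, 1 / ((p : ℝ) - 1) ≤ ε / 2 * Nat.primeCounting x := by
    have h10 : (0 : ℝ) ≤ Nat.primeCounting x := Nat.cast_nonneg _
    calc K * ∑ p ∈ PP x, 1 / ((p : ℝ) - 1)
        ≤ K * (ε / (2 * (K + 1)) * Nat.primeCounting x) := mul_le_mul_of_nonneg_left h2 hK0
      _ = (K / (K + 1)) * (ε / 2 * Nat.primeCounting x) := by field_simp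
      _ ≤ 1 * (ε / 2 * Nat.primeCounting x) := by
          apply mul_le_mul_of_nonneg_right _ (by positivity)
          rw [div_le_one (by positivity)]
          linarith
      _ = _ := one_mul _
  linarith

open Classical in
/-- **all but few tuples, with the local densities** -/
theorem tuplesM (θ C B : ℝ) (hθ : 1 / 2 < θ) (hθ1 : θ < 1) (hC : 1 / (2 * θ - 1) < C)
    (hB : B < 1 / (2 * (1 - θ))) (r : ℕ) (d : Fin r → Dat) (ε : ℝ) (hε : 0 < ε) :
    ∃ N₀ : ℕ, ∀ N : ℕ, N₀ ≤ N → ∀ w : ℕ → ℝ, (∀ p, 0 ≤ w p ∧ w p ≤ 1) →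
      (#((Fintype.piFinset (fun _ : Fin r => Icc 1 N)).filter (fun m => ∃ x : ℕ,
        (Real.log N) ^ C ≤ x ∧ (x : ℝ) ≤ Real.exp ((Real.log N) ^ B) ∧
          ε * (Nat.primeCounting x : ℝ) < |devM d w m x|)) : ℝ) ≤ (N : ℝ) ^ ((r : ℝ) - 1 + θ) := by
  obtain ⟨N₁, h1⟩ := tuples θ C B hθ hθ1 hC hB r d (ε / 2) (by positivity)
  obtain ⟨X₀, hX₀⟩ := mu_close d (ε / 2) (by positivity)
  have hC0 : 0 < C := lt_trans (by
    have : 0 < 2 * θ - 1 := by linarith
    positivity) hC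
  obtain ⟨N₂, h2⟩ := eventually_atTop.1
    (((tendsto_rpow_atTop hC0).comp tlog).eventually_ge_atTop (X₀ : ℝ))
  refine ⟨max N₁ N₂, fun N hN w hw => ?_⟩
  refine le_trans ?_ (h1 N ((le_max_left _ _).trans hN) w hw)
  have h3 := h2 N ((le_max_right _ _).trans hN)
  simp only [Function.comp_apply] at h3
  norm_cast
  apply card_le_card
  intro m hm
  rw [mem_filter] at hm
  obtain ⟨hm1, x, hx1, hx2, hx3⟩ := hm
  unfold badT
  rw [mem_filter]
  refine ⟨hm1, x, hx1, hx2, ?_⟩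
  have hx0 : X₀ ≤ x := by exact_mod_cast h3.trans hx1
  have h4 : devM d w m x = devT d w m x +
      ∑ p ∈ PP x, w p * (∏ i, (d i).G p - ∏ i, mu (d i) p) := by
    unfold devM devT
    rw [← sum_add_distrib]
    exact sum_congr rfl fun p _ => by ring
  have h5 : |∑ p ∈ PP x, w p * (∏ i, (d i).G p - ∏ i, mu (d i) p)| ≤
      ε / 2 * Nat.primeCounting x := by
    refine (abs_sum_le_sum_abs _ _).trans (le_trans (sum_le_sum fun p _ => ?_) (hX₀ x hx0))
    rw [abs_mul, abs_of_nonneg (hw p).1]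
    exact mul_le_of_le_one_left (abs_nonneg _) (hw p).2
  have h6 := abs_add_le (devT d w m x) (∑ p ∈ PP x, w p * (∏ i, (d i).G p - ∏ i, mu (d i) p))
  rw [← h4] at h6
  linarith

lemma mu_dens {d : Dat} {T : (p : ℕ) → ZMod p → Prop} (hd : ∀ (p : ℕ) (a : ZMod p), d.Q p a ↔ T p a)
    {p : ℕ} (hp : p.Prime) (h0 : ¬ T p 0) : mu d p = dens p (T p) := by
  classical
  have : Fact p.Prime := ⟨hp⟩
  rw [dens_eq]
  unfold mu
  have h1 : Nat.card (ZMod p)ˣ = p - 1 := by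
    rw [Nat.card_eq_fintype_card, ZMod.card_units_eq_totient, Nat.totient_prime hp]
  rw [h1]
  congr 2
  rw [Nat.card_eq_fintype_card, Fintype.card_subtype]
  refine Finset.card_bij (fun v _ => (v : ZMod p)) ?_ ?_ ?_
  · intro v hv
    rw [mem_filter] at hv ⊢
    exact ⟨mem_univ _, (hd _ _).1 hv.2⟩
  · intro v _ v' _ h
    exact Units.ext h
  · intro a ha
    rw [mem_filter] at ha
    have ha0 : a ≠ 0 := by
      rintro rfl
      exact h0 ha.2
    exact ⟨Units.mk0 a ha0, mem_filter.2 ⟨mem_univ _, (hd _ _).2 ha.2⟩, rfl⟩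

open Classical in
/-- **Lenstra's conditions for several groups at the same time.** -/
theorem simLen (θ C₀ B : ℝ) (hθ : 1 / 2 < θ) (hθ1 : θ < 1) (hC₀ : 1 / (2 * θ - 1) < C₀)
    (hB : B < 1 / (2 * (1 - θ))) (s : ℕ) (F : Fin s → IntermediateField ℚ QA)
    [∀ i, NumberField (F i)] [∀ i, IsGalois ℚ (F i)] (C : ∀ i, Set Gal(F i/ℚ))
    (W₀ : Fin s → Subgroup ℚˣ) (k : Fin s → ℕ) (D : Fin s → ℚˣ) (r : Fin s → ℕ)
    (hC : ∀ i, ∀ σ ∈ C i, ∀ τ : Gal(F i/ℚ), τ * σ * τ⁻¹ ∈ C i) (hW : ∀ i, (W₀ i).FG)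
    (hk : ∀ i, k i ≠ 0) (hr : ∀ i, 0 < r i)
    (hrk : ∀ i, ∀ l : ℕ, l.Prime → l ∣ r i → ql (k i) l ∣ r i) (ε : ℝ) (hε : 0 < ε) :
    ∃ N₀ : ℕ, ∀ N : ℕ, N₀ ≤ N → ∀ S : Set ℕ,
      (#((Fintype.piFinset (fun _ : Fin s => Icc 1 N)).filter (fun n => ∃ x : ℕ,
        (Real.log N) ^ C₀ ≤ x ∧ (x : ℝ) ≤ Real.exp ((Real.log N) ^ B) ∧
          ε * (Nat.primeCounting x : ℝ) <
            |(#((PP x).filter (fun q => q ∈ S ∧ ∀ i, LC (F i) (C i) (k i)
                (W₀ i ⊔ Subgroup.closure {w : ℚˣ | (w : ℚ) = (D i : ℚ) * (n i : ℚ) ^ r i}) q)) : ℝ) -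
              ∑ q ∈ (PP x).filter (fun q => q ∈ S), ∏ i,
                dens q (QR (F i) (C i) (W₀ i) (k i) (D i) (r i) q)|)) : ℝ) ≤
        (N : ℝ) ^ ((s : ℝ) - 1 + θ) := by
  have hdat : ∀ i, ∃ d : Dat, ∀ (p : ℕ) (a : ZMod p), d.Q p a ↔
      QR (F i) (C i) (W₀ i) (k i) (D i) (r i) p a := by
    intro i
    have hRp : ∀ l ∈ (r i).primeFactors, l.Prime := fun l hl => Nat.prime_of_mem_primeFactors hl
    have hW1 : (W₀ i ⊔ Subgroup.zpowers (D i)).FG :=
      (hW i).sup ⟨{D i}, by simp [Subgroup.zpowers_eq_closure]⟩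
    obtain ⟨d, -, hdQ⟩ := dat_R (F i) (C i) (W₀ i) (k i) (D i) (r i) (hW i) (hr i) (hrk i) _
      (lim_lenR (F i) (C i) (k i) (r i).primeFactors (hC i) hW1 (hW i) hRp)
    exact ⟨d, hdQ⟩
  choose d hd using hdat
  have hP1 : ∀ i, ∃ P1 : ℕ, ∀ p : ℕ, p.Prime → P1 ≤ p → Un p (D i : ℚ) := by
    intro i
    obtain ⟨P1, h, -⟩ := hQ_R (F i) (C i) (W₀ i) (k i) (D i) (hW i)
    exact ⟨P1, h⟩
  choose P1 hP1 using hP1
  set P : ℕ := ∑ i, P1 i with hP
  have hPi : ∀ i, P1 i ≤ P := fun i => single_le_sum (f := fun i => P1 i)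
    (fun _ _ => Nat.zero_le _) (mem_univ i)
  obtain ⟨N₁, h1⟩ := tuplesM θ C₀ B hθ hθ1 hC₀ hB s d (ε / 2) (by positivity)
  have hC0 : 0 < C₀ := lt_trans (by
    have : 0 < 2 * θ - 1 := by linarith
    positivity) hC₀
  have ht : Tendsto (fun x : ℕ => ε / 2 * (Nat.primeCounting x : ℝ)) atTop atTop :=
    (tendsto_natCast_atTop_atTop.comp Nat.tendsto_primeCounting).const_mul_atTop (by positivity)
  obtain ⟨X₀, hX₀⟩ := eventually_atTop.1 (ht.eventually_ge_atTop (P : ℝ))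
  obtain ⟨N₂, h2⟩ := eventually_atTop.1
    (((tendsto_rpow_atTop hC0).comp tlog).eventually_ge_atTop (X₀ : ℝ))
  refine ⟨max N₁ N₂, fun N hN S => ?_⟩
  set w : ℕ → ℝ := fun p => iP (p ∈ S) with hw
  refine le_trans ?_ (h1 N ((le_max_left _ _).trans hN) w fun p => ⟨iP_nonneg _, iP_le _⟩)
  have h3 := h2 N ((le_max_right _ _).trans hN)
  simp only [Function.comp_apply] at h3
  refine Nat.cast_le.2 (card_le_card ?_)
  intro n hn
  rw [mem_filter] at hn ⊢
  obtain ⟨hn1, x, hx1, hx2, hx3⟩ := hn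
  refine ⟨hn1, x, hx1, hx2, ?_⟩
  have hn0 : ∀ i, n i ≠ 0 := by
    intro i
    have := mem_Icc.1 (Fintype.mem_piFinset.1 hn1 i)
    omega
  have hx0 : X₀ ≤ x := by exact_mod_cast h3.trans hx1
  have hPx := hX₀ x hx0
  -- the sum of the local densities
  have e1 : ∑ q ∈ (PP x).filter (fun q => q ∈ S), ∏ i,
      dens q (QR (F i) (C i) (W₀ i) (k i) (D i) (r i) q) = ∑ p ∈ PP x, w p * ∏ i, mu (d i) p := by
    rw [sum_filter]
    refine sum_congr rfl fun p hp => ?_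
    have hpp : p.Prime := (mem_filter.1 hp).2
    have e2 : ∏ i, mu (d i) p = ∏ i, dens p (QR (F i) (C i) (W₀ i) (k i) (D i) (r i) p) := by
      refine prod_congr rfl fun i _ => mu_dens (T := fun p => QR (F i) (C i) (W₀ i) (k i) (D i)
        (r i) p) (hd i) hpp ?_
      rintro ⟨-, -, -, h, -⟩
      exact h rfl
    rw [e2]
    by_cases h : p ∈ S
    · rw [if_pos h, hw]
      simp only [iP_true h, one_mul]
    · rw [if_neg h, hw]
      simp only [iP_false h, zero_mul]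
  -- the number of primes
  have e3 : |(#((PP x).filter (fun q => q ∈ S ∧ ∀ i, LC (F i) (C i) (k i)
      (W₀ i ⊔ Subgroup.closure {w : ℚˣ | (w : ℚ) = (D i : ℚ) * (n i : ℚ) ^ r i}) q)) : ℝ) -
      ∑ p ∈ PP x, w p * ∏ i, iP ((d i).Q p (n i : ZMod p))| ≤ P := by
    have e4 : (#((PP x).filter (fun q => q ∈ S ∧ ∀ i, LC (F i) (C i) (k i)
        (W₀ i ⊔ Subgroup.closure {w : ℚˣ | (w : ℚ) = (D i : ℚ) * (n i : ℚ) ^ r i}) q)) : ℝ) =
        ∑ p ∈ PP x, w p * ∏ i, iP (LC (F i) (C i) (k i)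
          (W₀ i ⊔ Subgroup.closure {w : ℚˣ | (w : ℚ) = (D i : ℚ) * (n i : ℚ) ^ r i}) p) := by
      rw [card_filter]
      push_cast
      refine sum_congr rfl fun p _ => ?_
      by_cases h : p ∈ S
      · by_cases h' : ∀ i, LC (F i) (C i) (k i)
          (W₀ i ⊔ Subgroup.closure {w : ℚˣ | (w : ℚ) = (D i : ℚ) * (n i : ℚ) ^ r i}) p
        · rw [if_pos ⟨h, h'⟩, hw]
          simp only [iP_true h, one_mul]
          symm
          exact prod_eq_one fun i _ => iP_true (h' i)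
        · rw [if_neg (fun h2 => h' h2.2)]
          push Not at h'
          obtain ⟨i, hi⟩ := h'
          symm
          rw [prod_eq_zero (mem_univ i) (iP_false hi), mul_zero]
      · rw [if_neg (fun h2 => h h2.1), hw]
        simp only [iP_false h, zero_mul]
    rw [e4, ← sum_sub_distrib]
    refine (abs_sum_le_sum_abs _ _).trans ?_
    have e5 : ∀ p ∈ PP x, |w p * ∏ i, iP (LC (F i) (C i) (k i)
          (W₀ i ⊔ Subgroup.closure {w : ℚˣ | (w : ℚ) = (D i : ℚ) * (n i : ℚ) ^ r i}) p) -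
        w p * ∏ i, iP ((d i).Q p (n i : ZMod p))| ≤ if p < P then 1 else 0 := by
      intro p hp
      have hpp : p.Prime := (mem_filter.1 hp).2
      split_ifs with h
      · rw [← mul_sub, abs_mul, abs_of_nonneg (iP_nonneg _)]
        have a1 : ∀ T : Fin s → Prop, 0 ≤ ∏ i, iP (T i) ∧ ∏ i, iP (T i) ≤ 1 := fun T =>
          ⟨prod_nonneg fun i _ => iP_nonneg _,
            prod_le_one (fun i _ => iP_nonneg _) fun i _ => iP_le _⟩
        have a2 := a1 (fun i => LC (F i) (C i) (k i)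
          (W₀ i ⊔ Subgroup.closure {w : ℚˣ | (w : ℚ) = (D i : ℚ) * (n i : ℚ) ^ r i}) p)
        have a3 := a1 (fun i => (d i).Q p (n i : ZMod p))
        refine mul_le_one₀ (iP_le _) (abs_nonneg _) ?_
        rw [abs_le]
        constructor <;> linarith [a2.1, a2.2, a3.1, a3.2]
      · push Not at h
        have e6 : ∀ i, LC (F i) (C i) (k i)
            (W₀ i ⊔ Subgroup.closure {w : ℚˣ | (w : ℚ) = (D i : ℚ) * (n i : ℚ) ^ r i}) p ↔
            (d i).Q p (n i : ZMod p) := by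
          intro i
          rw [gp_eqR (W₀ i) (D i) (r i) (hn0 i), hd i]
          exact LC_iffR (F i) (C i) (W₀ i) (k i) (D i) (r i) (hk i) (hr i).ne' hpp
            (hP1 i p hpp ((hPi i).trans h)) (hn0 i)
        have e7 : ∏ i, iP (LC (F i) (C i) (k i)
            (W₀ i ⊔ Subgroup.closure {w : ℚˣ | (w : ℚ) = (D i : ℚ) * (n i : ℚ) ^ r i}) p) =
            ∏ i, iP ((d i).Q p (n i : ZMod p)) := by
          refine prod_congr rfl fun i _ => ?_
          rw [propext (e6 i)]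
        rw [e7, sub_self, abs_zero]
    refine (sum_le_sum e5).trans ?_
    rw [← sum_filter, sum_const, nsmul_eq_mul, mul_one]
    have h6 : (PP x).filter (fun p => p < P) ⊆ range P := fun p hp =>
      mem_range.2 (mem_filter.1 hp).2
    have h7 := card_le_card h6
    rw [card_range] at h7
    exact_mod_cast h7
  rw [e1] at hx3
  unfold devM
  have e8 : ∑ p ∈ PP x, w p * (∏ i, iP ((d i).Q p (n i : ZMod p)) - ∏ i, mu (d i) p) =
      ∑ p ∈ PP x, w p * ∏ i, iP ((d i).Q p (n i : ZMod p)) - ∑ p ∈ PP x, w p * ∏ i, mu (d i) p := by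
    rw [← sum_sub_distrib]
    exact sum_congr rfl fun p _ => by ring
  rw [e8]
  have e9 : ∀ Z Y1 Y2 Y3 : ℝ, (P : ℝ) ≤ ε / 2 * Z → |Y1 - Y2| ≤ P → ε * Z < |Y1 - Y3| →
      ε / 2 * Z < |Y2 - Y3| := by
    intro Z Y1 Y2 Y3 g1 g2 g3
    have g4 : |Y1 - Y3| ≤ |Y1 - Y2| + |Y2 - Y3| := abs_sub_le _ _ _
    linarith
  exact e9 _ _ _ _ hPx e3 hx3

end Pool.Agent.K6.H61.LE
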