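import Pool.Agent.K6.H61.LE.Defs
import Pool.Agent.K6.H61.LE.Sim

set_option autoImplicit false

/-! # Lenstra's conditions for several groups at the same time: the final form -/

namespace Pool.Agent.K6.H61.LE

open Finset Filter Topology NumberField
open Pool.Agent.H386R2.Artin (PP)
open Pool.Agent.W401.Cheb
open Pool.Agent.W171.LG
open Pool.Agent.H981R3.LN (ql Sk)
open Pool.Agent.TH890.AS (dens dens_eq)
open Pool.Agent.TH893.JO

lemma isPow_iff {q : ℕ} [Fact q.Prime] {w : ℚˣ} (h : Un q (w : ℚ)) (d : ℕ) :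
    IsPow q d w ↔ ∃ y : ZMod q, y ^ d = rd q (w : ℚ) := by
  unfold IsPow rd
  refine exists_congr fun y => ?_
  rw [eq_mul_inv_iff_mul_eq₀ h.2]
  exact eq_comm

lemma mem_PP' {x q : ℕ} : q ∈ PP x ↔ q ∈ Icc 1 x ∧ q.Prime := by
  unfold PP
  rw [mem_filter, mem_range, mem_Icc]
  constructor
  · rintro ⟨h1, h2⟩
    exact ⟨⟨h2.one_le, by omega⟩, h2⟩
  · rintro ⟨h1, h2⟩
    exact ⟨by omega, h2⟩

lemma loc_eq (A : Family) {q : ℕ} (hq : q.Prime) :
    A.loc q = dens q (QR A.F A.C A.W₀ A.k A.D A.r q) := by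
  classical
  have : Fact q.Prime := ⟨hq⟩
  rw [dens_QR]
  unfold Family.loc
  by_cases hD : padicValRat q (A.D : ℚ) = 0
  swap
  · have hUD : ¬ Un q (A.D : ℚ) := fun h => hD ((un_iff A.D.ne_zero).1 h)
    rw [if_neg (fun h => hD h.2.2), if_neg (fun h => hUD h.2.2)]
  have hUD : Un q (A.D : ℚ) := (un_iff A.D.ne_zero).2 hD
  by_cases hW : UnW A.W₀ q
  swap
  · rw [if_neg (fun h => hW ((unW_iff A.W₀).2 h.2.1)), if_neg (fun h => hW h.2.1)]
  have hW' : ∀ w ∈ A.W₀, padicValRat q (w : ℚ) = 0 := (unW_iff A.W₀).1 hW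
  by_cases hG : FrobIn A.F A.C q
  swap
  · have hG' : ¬ GF A.F A.C q := hG
    rw [if_neg (fun h => hG h.1), if_neg (fun h => hG' h.1)]
  have hG' : GF A.F A.C q := hG
  rw [if_pos ⟨hG, hW', hD⟩, if_pos ⟨hG', hW, hUD⟩]
  unfold LL Sk
  rw [filter_filter, prod_filter]
  refine prod_congr rfl fun l hl => ?_
  have hlp : l.Prime := Nat.prime_of_mem_primeFactors hl
  unfold Family.factor
  have e1 : (ql A.k l ∣ q - 1 ∧ PW A.W₀ (ql A.k l) q) ↔ (l ^ (A.k.factorization l + 1) ∣ q - 1 ∧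
      ∀ w ∈ A.W₀, IsPow q (l ^ (A.k.factorization l + 1)) w) := by
    change (ql A.k l ∣ q - 1 ∧ PW A.W₀ (ql A.k l) q) ↔
      (ql A.k l ∣ q - 1 ∧ ∀ w ∈ A.W₀, IsPow q (ql A.k l) w)
    refine and_congr_right fun hd => ?_
    unfold PW
    constructor
    · rintro ⟨-, h⟩ w hw
      rw [isPow_iff (hW w hw), ← zpow_iff (rd_ne (hW w hw)) hd]
      exact h w hw
    · intro h
      refine ⟨hd, fun w hw => ?_⟩
      rw [zpow_iff (rd_ne (hW w hw)) hd, ← isPow_iff (hW w hw)]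
      exact h w hw
  by_cases hc : ql A.k l ∣ q - 1 ∧ PW A.W₀ (ql A.k l) q
  swap
  · rw [if_neg hc, if_neg (fun h => hc (e1.2 h))]
  rw [if_pos hc, if_pos (e1.1 hc)]
  have hQ0 : (0 : ℝ) < (ql A.k l : ℕ) := by
    unfold ql
    exact_mod_cast pow_pos hlp.pos _
  unfold PD
  by_cases hlr : l ∣ A.r
  · have hg : Nat.gcd A.r (ql A.k l) = ql A.k l := Nat.gcd_eq_right (A.dvd l hlp hlr)
    rw [if_pos hlr, hg]
    have e2 : IsPow q (l ^ (A.k.factorization l + 1)) A.D ↔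
        ∃ y : ZMod q, y ^ ql A.k l = rd q (A.D : ℚ) := isPow_iff hUD _
    by_cases hP : IsPow q (l ^ (A.k.factorization l + 1)) A.D
    · rw [if_pos hP, if_pos (e2.1 hP), div_self hQ0.ne', sub_self]
    · rw [if_neg hP, if_neg (fun h => hP (e2.2 h)), sub_zero]
  · have hg : Nat.gcd A.r (ql A.k l) = 1 := by
      unfold ql
      exact (Nat.Coprime.pow_left _ ((Nat.Prime.coprime_iff_not_dvd hlp).2 hlr)).symm
    rw [if_neg hlr, hg, if_pos ⟨rd q (A.D : ℚ), pow_one _⟩, Nat.cast_one]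
    rfl

theorem main (θ C₀ B : ℝ) (hθ : 1 / 2 < θ) (hθ1 : θ < 1) (hC₀ : 1 / (2 * θ - 1) < C₀)
    (hB : B < 1 / (2 * (1 - θ))) (s : ℕ) (A : Fin s → Family) (ε : ℝ) (hε : 0 < ε) :
    ∃ N₀ : ℕ, ∀ N : ℕ, N₀ ≤ N → ∀ S : Set ℕ,
      (#(exceptions A S ε C₀ B N) : ℝ) ≤ (N : ℝ) ^ ((s : ℝ) - 1 + θ) := by
  classical
  obtain ⟨N₀, h⟩ := simLen θ C₀ B hθ hθ1 hC₀ hB s (fun i => (A i).F) (fun i => (A i).C)
    (fun i => (A i).W₀) (fun i => (A i).k) (fun i => (A i).D) (fun i => (A i).r)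
    (fun i => (A i).conj) (fun i => (A i).fg) (fun i => (A i).k_pos.ne') (fun i => (A i).r_pos)
    (fun i => (A i).dvd) ε hε
  refine ⟨N₀, fun N hN S => ?_⟩
  refine le_trans ?_ (h N hN S)
  refine Nat.cast_le.2 (card_le_card ?_)
  intro n hn
  unfold exceptions at hn
  rw [mem_filter] at hn ⊢
  obtain ⟨hn1, x, hx1, hx2, hx3⟩ := hn
  refine ⟨hn1, x, hx1, hx2, ?_⟩
  have e1 : cnt A S n x = #((PP x).filter (fun q => q ∈ S ∧ ∀ i, LC (A i).F (A i).C (A i).k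
      ((A i).W₀ ⊔ Subgroup.closure {w : ℚˣ | (w : ℚ) = ((A i).D : ℚ) * (n i : ℚ) ^ (A i).r}) q)) := by
    unfold cnt
    congr 1
    ext q
    rw [mem_filter, mem_filter, mem_PP', and_assoc]
    exact Iff.rfl
  have e2 : locSum A S x = ∑ q ∈ (PP x).filter (fun q => q ∈ S), ∏ i,
      dens q (QR (A i).F (A i).C (A i).W₀ (A i).k (A i).D (A i).r q) := by
    unfold locSum
    have e3 : (Icc 1 x).filter (fun q => q.Prime ∧ q ∈ S) = (PP x).filter (fun q => q ∈ S) := by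
      ext q
      rw [mem_filter, mem_filter, mem_PP', and_assoc]
    rw [e3]
    refine sum_congr rfl fun q hq => prod_congr rfl fun i _ => ?_
    exact loc_eq (A i) (mem_PP'.1 (mem_filter.1 hq).1).2
  rw [← e1, ← e2]
  exact hx3

end Pool.Agent.K6.H61.LE
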